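import Pool.Agent.H211.HY.Stm5
import Pool.Agent.H190.HY211.SOLVE

/-!
# HY211 SOLVE2: solving the equations by contraction, with a rate
-/

set_option autoImplicit false

open Topology Filter Metric Set

namespace Pool.Agent.H307.HY211

open Pool.Agent.H211.HY
open Pool.Agent.H190.HY211 (solve_aux exists_pos_le)

theorem t_SOLVE2 (hscale : S_SCALE2) (hfol : S_FOL) : S_SOLVE2 := by
  intro k f v z x ρ C c μ κ hG Tg h1 h2
  rcases Nat.eq_zero_or_pos k with hk | hk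
  · subst hk
    exact ⟨0, 0, 0, fun T _ => ⟨0, by rw [norm_zero]; positivity, fun i => i.elim0⟩⟩
  obtain ⟨η, hη, A, hA, ρ₁, hρ₁, L, hL⟩ := h1
  have i₀ : Fin k := ⟨0, hk⟩
  have hG0 := hG i₀
  obtain ⟨κ₀, hκ₀, hκ⟩ := exists_pos_le (fun i => ‖κ i‖) fun i => norm_pos_iff.2 (hG i).κ0
  -- following
  have hF := fun i => hfol k i (f i) (v i) (z i) (x i) ρ C c μ (κ i) (hG i) (κ₀ / 64)
    (by positivity)
  choose θ hθ rr hrr N₀ hN₀ using hF
  obtain ⟨θ', hθ', hθle⟩ := exists_pos_le θ hθ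
  obtain ⟨r', hr', hrle⟩ := exists_pos_le rr hrr
  -- scales
  set p : Fin k → ℕ → ℝ := fun i n => ‖DD (f i) (z i) n‖ with hp
  have hp0 : ∀ i, p i 0 = 1 := by
    intro i
    simp [hp, DD]
  have hDne : ∀ i n, DD (f i) (z i) n ≠ 0 := by
    intro i n
    unfold DD
    exact Finset.prod_ne_zero_iff.2 fun j _ => ((hG i).dx j).1
  have hpp : ∀ i n, 0 < p i n := fun i n => norm_pos_iff.2 (hDne i n)
  have hprec : ∀ i n, p i (n + 1) ≤ C * x i n * p i n := by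
    intro i n
    have e1 : DD (f i) (z i) (n + 1) = DD (f i) (z i) n * deriv (f i n 0) (z i n) := by
      unfold DD
      rw [Finset.prod_range_succ]
    rw [hp]
    simp only
    rw [e1, norm_mul, mul_comm]
    exact mul_le_mul_of_nonneg_right ((hG i).dx n).2 (norm_nonneg _)
  set A' : ℝ := 64 * A / κ₀ with hA'
  have hA'0 : 0 < A' := by positivity
  obtain ⟨ε₁, hε₁, B, T₁, hsc⟩ := hscale k C c μ p x hG0.C1 hG0.c0 hG0.μ1 hp0 (fun i n => (hG i).gr n)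
    (fun i n => (hG i).xx n) hprec θ' hθ' A' hA'0
  set ε₂ : ℝ := min ε₁ (A' * η) with hε₂
  have hε₂0 : 0 < ε₂ := lt_min hε₁ (mul_pos hA'0 hη)
  obtain ⟨ρ₂, hρ₂, L', M', hL'⟩ := h2 (κ₀ / 64 * ε₂) (by positivity)
  set L'' : ℝ := |L| + |L'| with hL''
  have hL''0 : 0 ≤ L'' := by positivity
  -- large times
  obtain ⟨N₁, hN₁⟩ : ∃ N₁ : ℕ, ∀ n ≥ N₁, 64 * L'' / κ₀ ≤ c * μ ^ n := by
    have ht : Tendsto (fun n : ℕ => c * μ ^ n) atTop atTop :=
      (tendsto_pow_atTop_atTop_of_one_lt hG0.μ1).const_mul_atTop hG0.c0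
    obtain ⟨N₁, hN₁⟩ := eventually_atTop.1 (ht.eventually_ge_atTop (64 * L'' / κ₀))
    exact ⟨N₁, hN₁⟩
  obtain ⟨N₂, hN₂⟩ : ∃ N₂ : ℕ, ∀ i, N₀ i ≤ N₂ :=
    ⟨Finset.univ.sup N₀, fun i => Finset.le_sup (Finset.mem_univ i)⟩
  set M : ℕ := max N₁ N₂ with hM
  -- small scales
  obtain ⟨r₂, hr₂, hr₂'⟩ : ∃ r₂ > (0 : ℝ), ∀ r : ℝ, 0 < r → r < r₂ → ∀ i, ∀ n < M,
      r * p i n < ε₁ ∧ r * p i n < A' * x i n := by
    have hfin : ∀ j : Fin k × Fin M, ∀ᶠ r : ℝ in 𝓝[>] 0, r * p j.1 j.2 < ε₁ ∧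
        r * p j.1 j.2 < A' * x j.1 j.2 := by
      intro j
      have ht : Tendsto (fun r : ℝ => r * p j.1 j.2) (𝓝[>] 0) (𝓝 0) := by
        have h3 : Tendsto (fun r : ℝ => r * p j.1 j.2) (𝓝 0) (𝓝 (0 * p j.1 j.2)) :=
          tendsto_id.mul_const _
        rw [zero_mul] at h3
        exact h3.mono_left nhdsWithin_le_nhds
      exact (ht.eventually_lt_const hε₁).and
        (ht.eventually_lt_const (mul_pos hA'0 ((hG j.1).xx j.2).1))
    have h3 := eventually_all.2 hfin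
    obtain ⟨r₂, hr₂, hsub⟩ := mem_nhdsGT_iff_exists_Ioo_subset.1 h3
    exact ⟨r₂, hr₂, fun r hr hrr2 i n hn => hsub ⟨hr, hrr2⟩ (i, ⟨n, hn⟩)⟩
  have hmin : 0 < min r' (min (min ρ₁ ρ₂) r₂) :=
    lt_min hr' (lt_min (lt_min hρ₁ hρ₂) hr₂)
  obtain ⟨T₂, hT₂⟩ : ∃ T₂ : ℕ, ∀ T ≥ T₂, (1 / 2 : ℝ) ^ T < min r' (min (min ρ₁ ρ₂) r₂) := by
    have ht : Tendsto (fun T : ℕ => (1 / 2 : ℝ) ^ T) atTop (𝓝 0) :=
      tendsto_pow_atTop_nhds_zero_of_lt_one (by norm_num) (by norm_num)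
    exact eventually_atTop.1 (ht.eventually_lt_const hmin)
  refine ⟨B, M', max T₁ T₂, fun T hT => ?_⟩
  obtain ⟨r, hr1, hr2, hall⟩ := hsc T ((le_max_left _ _).trans hT)
  have hr : 0 < r := lt_of_lt_of_le (by positivity) hr1
  have hrlt : r < min r' (min (min ρ₁ ρ₂) r₂) :=
    lt_of_le_of_lt hr2 (hT₂ T ((le_max_right _ _).trans hT))
  have hrr' : r < r' := hrlt.trans_le (min_le_left _ _)
  have hrρ₁ : r < ρ₁ := hrlt.trans_le
    ((min_le_right _ _).trans ((min_le_left _ _).trans (min_le_left _ _)))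
  have hrρ₂ : r < ρ₂ := hrlt.trans_le
    ((min_le_right _ _).trans ((min_le_left _ _).trans (min_le_right _ _)))
  have hrr₂ : r < r₂ := hrlt.trans_le ((min_le_right _ _).trans (min_le_right _ _))
  choose N hNB hNs hNa using hall
  have hNM : ∀ i, M ≤ N i := by
    intro i
    by_contra hcon
    push Not at hcon
    have h3 := hr₂' r hr hrr₂ i (N i) hcon
    rcases hNa i with h4 | h4
    · linarith [h3.1]
    · linarith [h3.2]
  have hfollow : ∀ i, DifferentiableOn ℂ (YY (f i) (v i) (N i)) (ball 0 r) ∧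
      ∀ s ∈ ball (0 : Fin k → ℂ) r, (∀ n < N i, ‖YY (f i) (v i) n s - z i n‖ < ρ) ∧
        ‖YY (f i) (v i) (N i) s - z i (N i) - κ i * DD (f i) (z i) (N i) * s i‖ ≤
          κ₀ / 64 * r * ‖DD (f i) (z i) (N i)‖ := by
    intro i
    refine hN₀ i r (N i) hr (hrr'.le.trans (hrle i)) ?_ ?_
    · exact (hN₂ i).trans ((le_max_right N₁ N₂).trans (hNM i))
    · exact (hNs i).trans (hθle i)
  -- the targets
  have htar : ∀ i, ∃ (ρ' : ℝ) (L₁ : ℝ) (q : (Fin k → ℂ) → ℂ), r < ρ' ∧ |L₁| ≤ L'' ∧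
      (Tg 0 i (N i) ρ' q ∨ Tg M' i (N i) ρ' q) ∧ IsT q ρ' L₁ ∧
        ‖q 0 - z i (N i)‖ ≤ κ₀ / 64 * r * p i (N i) := by
    intro i
    by_cases hc : A' * x i (N i) ≤ r * p i (N i) ∧ x i (N i) ≤ η
    · obtain ⟨q, hq1, hq2, hq3⟩ := hL i (N i) hc.2
      refine ⟨ρ₁, L, q, hrρ₁, by rw [hL'']; linarith [abs_nonneg L'], Or.inl hq1, hq2, hq3.trans ?_⟩
      have h3 := hc.1
      have h4 : κ₀ / 64 * (A' * x i (N i)) ≤ κ₀ / 64 * (r * p i (N i)) :=
        mul_le_mul_of_nonneg_left h3 (by positivity)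
      have h5 : κ₀ / 64 * (A' * x i (N i)) = A * x i (N i) := by
        rw [hA']
        field_simp
      rw [← h5, mul_assoc]
      exact h4
    · have hge : ε₂ ≤ r * p i (N i) := by
        rcases hNa i with h4 | h4
        · exact (min_le_left _ _).trans h4
        · have h5 : ¬ x i (N i) ≤ η := fun h6 => hc ⟨h4, h6⟩
          push Not at h5
          have h6 : A' * η ≤ A' * x i (N i) := mul_le_mul_of_nonneg_left h5.le hA'0.le
          exact (min_le_right _ _).trans (h6.trans h4)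
      obtain ⟨q, hq1, hq2, hq3⟩ := hL' i (N i)
      refine ⟨ρ₂, L', q, hrρ₂, by rw [hL'']; linarith [abs_nonneg L], Or.inr hq1, hq2, hq3.trans ?_⟩
      rw [mul_assoc]
      exact mul_le_mul_of_nonneg_left hge (by positivity)
  choose ρ' L₁ q hrρ' hL₁ hTg hIsT hq0 using htar
  obtain ⟨s, hs, hsol⟩ := solve_aux hr hκ₀ (fun i => YY (f i) (v i) (N i)) q κ
    (fun i => DD (f i) (z i) (N i)) (fun i => z i (N i)) hκ (fun i => hDne i (N i))
    (fun i => (hfollow i).1) (fun i s hs => ((hfollow i).2 s hs).2) hq0 (by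
      intro i s hs s' hs'
      have h3 := hIsT i s (ball_subset_ball (hrρ' i).le hs) s' (ball_subset_ball (hrρ' i).le hs')
      have h4 : L₁ i ≤ κ₀ / 64 * ‖DD (f i) (z i) (N i)‖ := by
        have h5 := hN₁ (N i) ((le_max_left N₁ N₂).trans (hNM i))
        have h6 := (hG i).gr (N i)
        have h7 : 64 * L'' / κ₀ ≤ ‖DD (f i) (z i) (N i)‖ := h5.trans h6
        rw [div_le_iff₀ hκ₀] at h7
        have h8 := (le_abs_self (L₁ i)).trans (hL₁ i)
        linarith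
      exact h3.trans (mul_le_mul_of_nonneg_right h4 (norm_nonneg _)))
  refine ⟨s, by linarith, fun i => ⟨N i, hNB i, ρ' i, q i, hTg i, ?_, hsol i, ?_⟩⟩
  · have := hrρ' i
    linarith
  · exact ((hfollow i).2 s (by rw [mem_ball_zero_iff]; linarith)).1

end Pool.Agent.H307.HY211
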